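import Pool.Agent.Helper74.DIH.Goals

/-!
# Packet D1 of DIH (project NW+): the numbering
-/

set_option autoImplicit false

namespace Pool.Agent.Helper94.DIH

open Pool.Agent.Helper52.Wq2 Pool.Agent.Helper61.NW Pool.Agent.Helper74.DIH

universe u

theorem X_zpow {V : Type u} (X : V → ℤ) (H : ℤ) (ψ : Equiv.Perm V)
    (hX : ∀ v, X (ψ v) = X v + H) (a : ℤ) (v : V) : X ((ψ ^ a) v) = X v + a * H := by
  induction a using Int.induction_on with
  | zero => simp
  | succ a ih =>
    have e1 : (ψ ^ ((a : ℤ) + 1)) v = ψ ((ψ ^ (a : ℤ)) v) := by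
      rw [add_comm, zpow_add, zpow_one]; rfl
    rw [e1, hX, ih]
    ring
  | pred a ih =>
    have e1 : (ψ ^ (-(a : ℤ))) v = ψ ((ψ ^ (-(a : ℤ) - 1)) v) := by
      have e2 : -(a : ℤ) = 1 + (-(a : ℤ) - 1) := by ring
      conv_lhs => rw [e2, zpow_add, zpow_one]
      rfl
    have e3 := hX ((ψ ^ (-(a : ℤ) - 1)) v)
    rw [← e1, ih] at e3
    linarith

theorem f_zpow {V : Type u} (f : V → V) (e : ℤ) (ψ : Equiv.Perm V)
    (hf : ∀ x, f (ψ x) = (ψ ^ e) (f x)) (a : ℤ) (x : V) : f ((ψ ^ a) x) = (ψ ^ (e * a)) (f x) := by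
  induction a using Int.induction_on with
  | zero => simp
  | succ a ih =>
    have e1 : (ψ ^ ((a : ℤ) + 1)) x = ψ ((ψ ^ (a : ℤ)) x) := by
      rw [add_comm, zpow_add, zpow_one]; rfl
    rw [e1, hf, ih]
    have e2 : e * ((a : ℤ) + 1) = e + e * a := by ring
    rw [e2, zpow_add]
    rfl
  | pred a ih =>
    have e1 : (ψ ^ (-(a : ℤ))) x = ψ ((ψ ^ (-(a : ℤ) - 1)) x) := by
      have e2 : -(a : ℤ) = 1 + (-(a : ℤ) - 1) := by ring
      conv_lhs => rw [e2, zpow_add, zpow_one]
      rfl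
    rw [e1, hf] at ih
    have e3 : e * (-(a : ℤ)) = e + e * (-(a : ℤ) - 1) := by ring
    rw [e3, zpow_add] at ih
    exact (ψ ^ e).injective ih

theorem d1 : D1Stmt.{u} := by
  intro V G X H ψ m n hH hX hψ hnear hfin hcard hn hm hper hconn htr
  obtain ⟨F, hF⟩ : ∃ F : Set V, F = {v | 0 ≤ X v ∧ X v < H} := ⟨_, rfl⟩
  rw [← hF] at hfin hcard
  have hFm : ∀ v, v ∈ F ↔ 0 ≤ X v ∧ X v < H := fun v => by rw [hF]; exact Iff.rfl
  have hfin' : Finite F := hfin
  have hc : Nat.card F = n := by rw [← hcard]; exact Nat.card_coe_set_eq F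
  let ι : F ≃ Fin n := Finite.equivFinOfCardEq hc
  obtain ⟨r, hr⟩ : ∃ r : Fin n → V, r = fun k => ((ι.symm k : F) : V) := ⟨_, rfl⟩
  have rF : ∀ k, 0 ≤ X (r k) ∧ X (r k) < H := by
    intro k
    have h1 := (ι.symm k).2
    rw [hr]
    exact (hFm _).1 h1
  have rinj : ∀ k l, r k = r l → k = l := by
    intro k l h
    rw [hr] at h
    exact ι.symm.injective (Subtype.ext h)
  have rsurj : ∀ v, 0 ≤ X v → X v < H → ∃ k, r k = v := by
    intro v h1 h2
    have hv : v ∈ F := (hFm v).2 ⟨h1, h2⟩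
    refine ⟨ι ⟨v, hv⟩, ?_⟩
    rw [hr]
    simp
  have hz := X_zpow X H ψ hX
  let E0 : ℤ × Fin n → V := fun p => (ψ ^ p.1) (r p.2)
  have hbij : Function.Bijective E0 := by
    constructor
    · rintro ⟨a, k⟩ ⟨b, l⟩ h
      have h' : (ψ ^ a) (r k) = (ψ ^ b) (r l) := h
      have h1 := congrArg X h'
      rw [hz, hz] at h1
      have h2 := rF k
      have h3 := rF l
      have h4 : a = b := by
        by_contra hne
        rcases lt_or_gt_of_ne hne with h5 | h5
        · nlinarith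
        · nlinarith
      subst h4
      rw [rinj k l ((ψ ^ a).injective h')]
    · intro v
      have h1 := Int.emod_nonneg (X v) hH.ne'
      have h2 := Int.emod_lt_of_pos (X v) hH
      have h3 := Int.emod_add_mul_ediv (X v) H
      have h4 : X ((ψ ^ (-(X v / H))) v) = X v % H := by
        rw [hz]
        linarith
      obtain ⟨k, hk⟩ := rsurj ((ψ ^ (-(X v / H))) v) (by rw [h4]; exact h1) (by rw [h4]; exact h2)
      refine ⟨(X v / H, k), ?_⟩
      show (ψ ^ (X v / H)) (r k) = v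
      rw [hk, ← Equiv.Perm.mul_apply, ← zpow_add, add_neg_cancel, zpow_zero]
      rfl
  let E : ℤ × Fin n ≃ V := Equiv.ofBijective E0 hbij
  have hE : ∀ a k, E (a, k) = (ψ ^ a) (r k) := fun a k => rfl
  have hadj : ∀ p q, (G.comap E).Adj p q ↔ G.Adj (E p) (E q) := fun p q => Iff.rfl
  obtain ⟨fm, hfm⟩ := hper
  refine ⟨G.comap E, ⟨hn, hm, ?_, ?_, ?_, ?_, ?_⟩, ⟨⟨E.symm, ?_⟩⟩⟩
  · intro a j
    rw [hadj, hE, hE]
    have e1 : (ψ ^ (a + 1)) (r j) = ψ ((ψ ^ a) (r j)) := by
      rw [add_comm, zpow_add, zpow_one]; rfl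
    rw [e1]
    exact hψ _
  · intro a b i j h
    rw [hadj, hE, hE] at h
    have h1 := abs_le.1 (hnear _ _ h)
    rw [hz, hz] at h1
    have h2 := rF i
    have h3 := rF j
    rw [abs_le]
    constructor
    · by_contra h4
      have h5 : b - a ≥ 2 := by omega
      nlinarith
    · by_contra h4
      have h5 : a - b ≥ 2 := by omega
      nlinarith
  · intro a b i j
    rw [hadj, hadj, hE, hE, hE, hE]
    have e1 : ∀ (a : ℤ) (x : V), (ψ ^ (a + m)) x = fm ((ψ ^ a) x) := by
      intro a x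
      rw [hfm, add_comm, zpow_add, zpow_natCast]
      rfl
    rw [e1, e1, fm.map_adj_iff]
  · have h1 := hconn.image (G' := G.comap E) E.symm (by
      intro a _ b _ hab
      right
      rw [hadj, E.apply_symm_apply, E.apply_symm_apply]
      exact hab)
    rwa [Set.image_univ, E.symm.surjective.range_eq] at h1
  · intro i j
    obtain ⟨f, e, he, ⟨j0, hj0⟩, hf⟩ := htr (r i) (r j)
    have hfz := f_zpow f e ψ hf
    obtain ⟨c, hc⟩ : ∃ c : Fin n → ℤ, c = fun k => (E.symm (f (r k))).1 := ⟨_, rfl⟩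
    obtain ⟨τ, hτ⟩ : ∃ τ : Fin n → Fin n, τ = fun k => (E.symm (f (r k))).2 := ⟨_, rfl⟩
    have hcτ : ∀ k, f (r k) = (ψ ^ (c k)) (r (τ k)) := by
      intro k
      have h1 : E (E.symm (f (r k))) = f (r k) := E.apply_symm_apply _
      rw [hc, hτ]
      exact h1.symm
    have hee : e * e = 1 := by rcases he with rfl | rfl <;> norm_num
    have τinj : Function.Injective τ := by
      intro k l hkl
      have h1 : f (r k) = f ((ψ ^ (e * (c k - c l))) (r l)) := by
        rw [hfz, ← mul_assoc, hee, one_mul, hcτ k, hcτ l, hkl, ← Equiv.Perm.mul_apply,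
          ← zpow_add, sub_add_cancel]
      have h2 := f.injective h1
      have h3 : E (0, k) = E (e * (c k - c l), l) := by
        rw [hE, hE, zpow_zero]
        exact h2
      exact (Prod.ext_iff.1 (E.injective h3)).2
    let σ : Equiv.Perm (Fin n) := Equiv.ofBijective τ (Finite.injective_iff_bijective.1 τinj)
    have hff : ∀ p q, (G.comap E).Adj (E.symm (f (E p))) (E.symm (f (E q))) ↔
        (G.comap E).Adj p q := by
      intro p q
      rw [hadj, hadj, E.apply_symm_apply, E.apply_symm_apply, f.map_adj_iff]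
    refine ⟨⟨(E.trans f.toEquiv).trans E.symm, fun {p q} => hff p q⟩, σ, e, c, he, ?_, ?_⟩
    · show τ i = j
      have h1 : E (c i, τ i) = E (j0, j) := by
        rw [hE, hE, ← hcτ, hj0]
      exact (Prod.ext_iff.1 (E.injective h1)).2
    · intro a k
      show E.symm (f (E (a, k))) = (e * a + c k, τ k)
      rw [E.symm_apply_eq, hE, hE, hfz, hcτ, ← Equiv.Perm.mul_apply, ← zpow_add]
  · intro a b
    rw [hadj, E.apply_symm_apply, E.apply_symm_apply]

end Pool.Agent.Helper94.DIH
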